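import Pool.Agent.LibDD61.Transfer
import Pool.Agent.LibDD61.HSide
import Pool.Agent.LibDD61.Lin

/-! MP_ddaea2_co: a graph whose dual has the Tutte polynomial of a 3-edge-connected graph `h`,
whose 3-edge-cuts are stars and which has at most one vertex of degree different from three,
has an abstract dual graph (and so is planar by a theorem of Whitney). -/

set_option autoImplicit false

namespace Pool.Agent.Results.MP_ddaea2_co.NearCubicDuals

open scoped Classical
open Pool.Agent.LibDD61

theorem evenSet_iff {V E : Type} [Fintype V] (g : E → Sym2 V) (A : Finset E) :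
    EvenSet g A ↔ ∑ e ∈ A, inc g e = 0 := by
  have key : ∀ v, (∑ e ∈ A, inc g e) v = ((deg g A v : ℕ) : ZMod 2) := by
    intro v
    rw [Finset.sum_apply]
    unfold inc deg
    rw [← Finset.sum_filter, Finset.sum_const, nsmul_eq_mul, mul_one]
  constructor
  · intro h
    funext v
    rw [key v]
    exact (ZMod.natCast_eq_zero_iff_even).2 (h v)
  · intro h v
    have := congrFun h v
    rw [key v] at this
    exact (ZMod.natCast_eq_zero_iff_even).1 this

theorem result {V E W F : Type} [Fintype V] [Fintype E] [Fintype W] [Fintype F]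
    (g : E → Sym2 V) (h : F → Sym2 W) (hg : ∀ e, ¬ (g e).IsDiag) (hh : NearCubic h)
    (hT : ∀ x y : ℤ, tutte g y x = tutte h x y) :
    ∃ (U : Type) (_ : Fintype U) (d : E → Sym2 U),
      (∀ A : Finset E, EvenSet g A ↔ ∃ S : Finset U, A = cut d S) ∧
      ∃ u₀ : U, ∀ u, u ≠ u₀ → (cut d {u}).card = 3 := by
  obtain ⟨hE, hr, hN⟩ := transfer g h hg hh.loopless hh.comps_univ hT
  have hex : ∀ A : Finset E, ∃ C : Finset F, C.card = A.card ∧
      comps h Cᶜ + rk (inc g) A = A.card + 1 := by
    intro A
    have hpos : 0 < (Finset.univ.filter fun A' : Finset E =>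
        A'.card = A.card ∧ rk (inc g) A' = rk (inc g) A).card :=
      Finset.card_pos.2 ⟨A, by rw [Finset.mem_filter]; exact ⟨Finset.mem_univ _, rfl, rfl⟩⟩
    rw [hN, Finset.card_pos] at hpos
    obtain ⟨C, hC⟩ := hpos
    rw [Finset.mem_filter] at hC
    exact ⟨C, hC.2.1, hC.2.2⟩
  have htri : (tri (inc g)).card
      = (Finset.univ.filter fun u : W => (cut h {u}).card = 3).card := by
    unfold tri
    rw [hN 2 3]
    exact hh.count23
  have h53 : (Finset.univ.filter fun A : Finset E => A.card = 5 ∧ rk (inc g) A = 3).card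
      = (Finset.univ.filter fun f : F => ∀ u ∈ h f, (cut h {u}).card = 3).card := by
    rw [hN 3 5]
    exact hh.count35
  obtain ⟨n1, n2, n3⟩ := hh.numbers
  have h1 : ∀ A : Finset E, rk (inc g) A + 1 ≤ A.card → A.card + 3 ≤ 3 * rk (inc g) A := by
    intro A hA
    obtain ⟨C, hC, hk⟩ := hex A
    have := hh.sparse C (by omega)
    omega
  have h4 : ∀ A : Finset E, 3 ≤ rk (inc g) A → A.card + 3 = 3 * rk (inc g) A →
      A = Finset.univ ∧ (tri (inc g)).card = Fintype.card W := by
    intro A hA hA3
    obtain ⟨C, hC, hk⟩ := hex A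
    obtain ⟨hCu, hcub⟩ := hh.tight C (rk (inc g) A) hA (by omega) (by omega)
    constructor
    · rw [← Finset.card_eq_iff_eq_univ, ← hC, hCu, Finset.card_univ, hE]
    · rw [htri, Finset.filter_true_of_mem (fun u _ => hcub u), Finset.card_univ]
  obtain ⟨U, hU, d, hd, hu⟩ := core (inc g) (Fintype.card W) h1 h4 (by omega)
    (by rw [h53, htri]; omega) (by omega) (by omega) hh.card
  exact ⟨U, hU, d, fun A => (evenSet_iff g A).trans (hd A), hu⟩

end Pool.Agent.Results.MP_ddaea2_co.NearCubicDuals
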